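import Mathlib

set_option autoImplicit false

namespace Pool.Agent.Lib.MP_a13529_nt

/-- The alternating sum-of-divisors function: the product over `p ^ a ∥ n` of
`(p ^ (a+1) + (-1) ^ a) / (p + 1)`. -/
def beta (n : ℕ) : ℕ :=
  ∏ p ∈ n.primeFactors,
    (((p : ℤ) ^ (n.factorization p + 1) + (-1) ^ n.factorization p) / ((p : ℤ) + 1)).toNat

end Pool.Agent.Lib.MP_a13529_nt
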