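import Mathlib
import Pool.Agent.Lib.MP_a13529_nt.Def

set_option autoImplicit false

namespace Pool.Agent.Lib.MP_a13529_nt

/-- Local factor. -/
def loc (p a : ℕ) : ℕ := (((p : ℤ) ^ (a + 1) + (-1) ^ a) / ((p : ℤ) + 1)).toNat

lemma loc_spec (p a : ℕ) (hp : 1 ≤ p) :
    ((p : ℤ) + 1) * (loc p a : ℤ) = (p : ℤ) ^ (a + 1) + (-1) ^ a := by
  have hp' : (1 : ℤ) ≤ p := by exact_mod_cast hp
  have hd : ((p : ℤ) + 1) ∣ (p : ℤ) ^ (a + 1) + (-1) ^ a := by
    have := sub_dvd_pow_sub_pow (p : ℤ) (-1) (a + 1)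
    rw [sub_neg_eq_add, pow_succ (-1 : ℤ) a, mul_neg_one, sub_neg_eq_add] at this
    exact this
  have h0 : 0 ≤ (p : ℤ) ^ (a + 1) + (-1) ^ a := by
    have h1 : (1 : ℤ) ≤ (p : ℤ) ^ (a + 1) := one_le_pow₀ hp'
    rcases neg_one_pow_eq_or ℤ a with h | h <;> rw [h] <;> linarith
  unfold loc
  rw [Int.toNat_of_nonneg (Int.ediv_nonneg h0 (by linarith)), Int.mul_ediv_cancel' hd]

lemma loc_even (p a : ℕ) (hp : 1 ≤ p) (ha : Even a) : (p + 1) * loc p a = p ^ (a + 1) + 1 := by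
  have := loc_spec p a hp
  rw [ha.neg_one_pow] at this
  exact_mod_cast this

lemma loc_odd (p a : ℕ) (hp : 1 ≤ p) (ha : Odd a) : (p + 1) * loc p a + 1 = p ^ (a + 1) := by
  have := loc_spec p a hp
  rw [ha.neg_one_pow] at this
  have h2 : ((p : ℤ) + 1) * (loc p a : ℤ) + 1 = (p : ℤ) ^ (a + 1) := by linarith
  exact_mod_cast h2

lemma loc_le (p a : ℕ) (hp : 1 ≤ p) : (p + 1) * loc p a ≤ p ^ (a + 1) + 1 := by
  rcases Nat.even_or_odd a with h | h
  · exact (loc_even p a hp h).le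
  · have := loc_odd p a hp h; omega

lemma loc_zero (p : ℕ) (hp : 1 ≤ p) : loc p 0 = 1 := by
  have := loc_even p 0 hp (by decide)
  simp only [zero_add, pow_one] at this
  exact Nat.eq_of_mul_eq_mul_left (Nat.succ_pos p) (by rw [this]; simp)

lemma loc_pos (p a : ℕ) (hp : 2 ≤ p) : 0 < loc p a := by
  have h1 : 2 ≤ p ^ (a + 1) := hp.trans (Nat.le_self_pow (by omega) p)
  by_contra h
  have h0 : loc p a = 0 := by omega
  rcases Nat.even_or_odd a with h | h
  · have := loc_even p a (by omega) h; rw [h0] at this; omega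
  · have := loc_odd p a (by omega) h; rw [h0] at this; omega

/-- `p ^ 2 * loc p a ≤ (p ^ 2 - p + 1) * p ^ a` for `a ≥ 1`. -/
lemma loc_ratio (p a : ℕ) (hp : 2 ≤ p) (ha : 1 ≤ a) :
    p ^ 2 * loc p a + p * p ^ a ≤ (p ^ 2 + 1) * p ^ a := by
  apply Nat.le_of_mul_le_mul_left _ (Nat.succ_pos p)
  rcases Nat.even_or_odd a with h | h
  · have h1 := loc_even p a (by omega) h
    have h2 : p ^ 2 ≤ p ^ a := Nat.pow_le_pow_right (by omega) (by
      obtain ⟨k, rfl⟩ := h; omega)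
    have h3 : p.succ * (p ^ 2 * loc p a + p * p ^ a) =
        p ^ 2 * (p ^ (a + 1) + 1) + (p + 1) * p * p ^ a := by
      rw [← h1]; simp only [Nat.succ_eq_add_one]; ring
    rw [h3, pow_succ p a]
    simp only [Nat.succ_eq_add_one]
    nlinarith
  · have h1 := loc_odd p a (by omega) h
    have h3 : p.succ * (p ^ 2 * loc p a + p * p ^ a) + p ^ 2 =
        p ^ 2 * p ^ (a + 1) + (p + 1) * p * p ^ a := by
      rw [← h1]; simp only [Nat.succ_eq_add_one]; ring
    rw [pow_succ p a] at h3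
    simp only [Nat.succ_eq_add_one] at h3 ⊢
    nlinarith [Nat.zero_le (p ^ a), Nat.zero_le (p ^ 2)]

lemma loc_le_pow (p a : ℕ) (hp : 2 ≤ p) : loc p a ≤ p ^ a := by
  have h1 := loc_le p a (by omega)
  have h2 : 1 ≤ p ^ a := Nat.one_le_pow _ _ (by omega)
  apply Nat.le_of_mul_le_mul_left _ (Nat.succ_pos p)
  rw [pow_succ] at h1
  simp only [Nat.succ_eq_add_one]
  nlinarith

lemma beta_eq (n : ℕ) : beta n = n.factorization.prod loc := rfl

lemma beta_one : beta 1 = 1 := by simp [beta]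

lemma beta_mul {a b : ℕ} (h : Nat.Coprime a b) : beta (a * b) = beta a * beta b := by
  rw [beta_eq, beta_eq, beta_eq, Nat.factorization_mul_of_coprime h,
    Finsupp.prod_add_index_of_disjoint h.disjoint_primeFactors]

lemma beta_prime_pow {p : ℕ} (hp : p.Prime) (a : ℕ) : beta (p ^ a) = loc p a := by
  rw [beta_eq, hp.factorization_pow, Finsupp.prod_single_index (loc_zero p hp.one_lt.le)]

lemma beta_split {p : ℕ} (hp : p.Prime) (a u : ℕ) (hu : ¬ p ∣ u) :
    beta (p ^ a * u) = loc p a * beta u := by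
  rw [beta_mul (((Nat.Prime.coprime_iff_not_dvd hp).2 hu).pow_left a), beta_prime_pow hp]

lemma beta_pos_le (n : ℕ) (hn : 0 < n) : 0 < beta n ∧ beta n ≤ n := by
  induction n using Nat.recOnPosPrimePosCoprime with
  | prime_pow p a hp _ =>
    rw [beta_prime_pow hp]
    exact ⟨loc_pos p a hp.two_le, loc_le_pow p a hp.two_le⟩
  | zero => omega
  | one => simp [beta_one]
  | coprime a b ha hb hab iha ihb =>
    rw [beta_mul hab]
    exact ⟨Nat.mul_pos (iha (by omega)).1 (ihb (by omega)).1,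
      Nat.mul_le_mul (iha (by omega)).2 (ihb (by omega)).2⟩

lemma split_prime {p m : ℕ} (hp : p.Prime) (hm : 0 < m) :
    ∃ a u, ¬ p ∣ u ∧ 0 < u ∧ m = p ^ a * u := by
  obtain ⟨a, u, hu, rfl⟩ := Nat.exists_eq_pow_mul_and_not_dvd hm.ne' p hp.ne_one
  exact ⟨a, u, hu, Nat.pos_of_mul_pos_left hm, rfl⟩

lemma beta_ratio {p m : ℕ} (hp : p.Prime) (hm : 0 < m) (hd : p ∣ m) :
    p ^ 2 * beta m + p * m ≤ (p ^ 2 + 1) * m := by
  obtain ⟨a, u, hu, hu0, rfl⟩ := split_prime hp hm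
  have ha : 1 ≤ a := by
    rcases Nat.eq_zero_or_pos a with rfl | h
    · simp at hd; exact absurd hd hu
    · exact h
  rw [beta_split hp a u hu]
  have h1 := loc_ratio p a hp.two_le ha
  have h2 := (beta_pos_le u hu0).2
  calc p ^ 2 * (loc p a * beta u) + p * (p ^ a * u)
      ≤ p ^ 2 * (loc p a * u) + p * (p ^ a * u) := by gcongr
    _ = (p ^ 2 * loc p a + p * p ^ a) * u := by ring
    _ ≤ ((p ^ 2 + 1) * p ^ a) * u := by gcongr
    _ = _ := by ring

lemma beta_ratio' {N m : ℕ} (hN : 1 < N) (hm : 0 < m) (hd : N ∣ m) :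
    (N + 2) * beta m ≤ (N + 1) * m := by
  have hq := Nat.minFac_prime hN.ne'
  set q := N.minFac
  have h1 := beta_ratio hq hm ((Nat.minFac_dvd N).trans hd)
  have hqN : q ≤ N := Nat.minFac_le (by omega)
  have h2 := hq.two_le
  have hb := (beta_pos_le m hm).2
  have h3 : (q + 2) * beta m ≤ (q + 1) * m := by
    apply Nat.le_of_mul_le_mul_left _ (show 0 < q ^ 2 by positivity)
    have : (q + 2) * (q ^ 2 * beta m + q * m) ≤ (q + 2) * ((q ^ 2 + 1) * m) :=
      Nat.mul_le_mul_left _ h1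
    have h4 : 2 * m ≤ q * m := Nat.mul_le_mul_right _ h2
    nlinarith
  obtain ⟨d, hd'⟩ := Nat.exists_eq_add_of_le hqN
  have : d * beta m ≤ d * m := Nat.mul_le_mul_left _ hb
  rw [hd']
  nlinarith

lemma loc_even_of_odd {p a : ℕ} (hp : 1 ≤ p) (ha : Odd a) : (p - 1) ∣ loc p a := by
  obtain ⟨k, rfl⟩ := ha
  have h1 := loc_odd p (2 * k + 1) hp ⟨k, rfl⟩
  have h2 : p ^ 2 - 1 ∣ (p ^ 2) ^ (k + 1) - 1 := by
    simpa using Nat.sub_dvd_pow_sub_pow (p ^ 2) 1 (k + 1)
  have h3 : (p ^ 2) ^ (k + 1) - 1 = (p + 1) * loc p (2 * k + 1) := by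
    rw [← pow_mul, show 2 * (k + 1) = 2 * k + 1 + 1 by ring]; omega
  have h4 : p ^ 2 - 1 = (p + 1) * (p - 1) := by
    obtain ⟨j, rfl⟩ := Nat.exists_eq_add_of_le hp
    rw [Nat.sub_eq_iff_eq_add (Nat.one_le_pow _ _ (by omega))]
    simp; ring
  rw [h3, h4] at h2
  exact Nat.dvd_of_mul_dvd_mul_left (Nat.succ_pos p) h2

lemma loc_succ_succ (p a : ℕ) (hp : 1 ≤ p) :
    (loc p (a + 2) : ℤ) = loc p a + (p : ℤ) ^ (a + 1) * (p - 1) := by
  have h1 := loc_spec p a hp
  have h2 := loc_spec p (a + 2) hp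
  have h3 : ((p : ℤ) + 1) ≠ 0 := by positivity
  apply mul_left_cancel₀ h3
  rw [h2, mul_add, h1]
  ring

lemma loc_odd_of_even {p a : ℕ} (hp : Odd p) (ha : Even a) : Odd (loc p a) := by
  obtain ⟨k, rfl⟩ := ha
  have hp1 : 1 ≤ p := hp.pos
  induction k with
  | zero => rw [loc_zero p hp1]; decide
  | succ k ih =>
    rw [← Int.odd_coe_nat, show k + 1 + (k + 1) = k + k + 2 by ring, loc_succ_succ _ _ hp1]
    refine Odd.add_even ((Int.odd_coe_nat _).2 ih) (Even.mul_left ?_ _)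
    exact ((Int.odd_coe_nat _).2 hp).sub_odd odd_one

lemma isSquare_of_beta_odd (u : ℕ) (hu : Odd u) (hb : Odd (beta u)) : IsSquare u := by
  induction u using Nat.recOnPosPrimePosCoprime with
  | prime_pow p a hp ha =>
    rw [beta_prime_pow hp] at hb
    rcases Nat.even_or_odd a with h | h
    · exact h.isSquare_pow p
    · exfalso
      have hpo : Odd p := (Nat.odd_pow_iff ha.ne').1 hu
      have h2 : 2 ∣ p - 1 := by obtain ⟨k, rfl⟩ := hpo; simp
      exact (Nat.not_even_iff_odd.2 hb) (even_iff_two_dvd.2 (h2.trans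
        (loc_even_of_odd hp.one_lt.le h)))
  | zero => exact ⟨0, rfl⟩
  | one => exact ⟨1, rfl⟩
  | coprime a b ha hb' hab iha ihb =>
    rw [beta_mul hab, Nat.odd_mul] at hb
    rw [Nat.odd_mul] at hu
    exact (iha hu.1 hb.1).mul (ihb hu.2 hb.2)

lemma loc_two_le (a : ℕ) (ha : 1 ≤ a) : 4 * loc 2 a ≤ 3 * 2 ^ a := by
  have := loc_ratio 2 a le_rfl ha
  omega

lemma loc_two_le' (a : ℕ) (ha : 1 ≤ a) (h2 : a ≠ 2) : 16 * loc 2 a ≤ 11 * 2 ^ a := by
  rcases Nat.even_or_odd a with h | h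
  · have h1 := loc_even 2 a (by norm_num) h
    have h3 : 2 ^ 4 ≤ 2 ^ a := Nat.pow_le_pow_right (by norm_num) (by
      obtain ⟨k, rfl⟩ := h; omega)
    rw [pow_succ] at h1; omega
  · have h1 := loc_odd 2 a (by norm_num) h
    rw [pow_succ] at h1; omega

lemma loc_two_two : loc 2 2 = 3 := by decide

/-- If `beta m` divides a power of two then `q - 1` does too for each odd prime `q ∣ m`. -/
lemma fermat_of_beta {m k q : ℕ} (hm : 0 < m) (hb : beta m ∣ 2 ^ k) (hq : q.Prime) (hq2 : Odd q)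
    (hd : q ∣ m) : q - 1 ∣ 2 ^ k := by
  obtain ⟨c, u, hu, hu0, rfl⟩ := split_prime hq hm
  rw [beta_split hq c u hu] at hb
  have h1 : loc q c ∣ 2 ^ k := (dvd_mul_right _ _).trans hb
  rcases Nat.even_or_odd c with h | h
  · exfalso
    have h2 := loc_odd_of_even hq2 h
    have h3 : loc q c = 1 :=
      Nat.Coprime.eq_one_of_dvd ((Nat.coprime_two_right.2 h2).pow_right k) h1
    have h4 := loc_even q c hq.one_lt.le h
    rw [h3] at h4
    have h5 : q ^ (c + 1) = q ^ 1 := by rw [pow_one]; omega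
    have h6 : c = 0 := by
      have := Nat.pow_right_injective hq.two_le h5
      omega
    subst h6
    simp at hd
    exact hu hd
  · exact (loc_even_of_odd hq.one_lt.le h).trans h1

lemma order_two {q k e : ℕ} (hq : q.Prime) (hq2 : Odd q) (h1 : q - 1 ∣ 2 ^ k)
    (h2 : 2 ^ e ≡ 1 [MOD q]) : 2 ^ (Nat.gcd e (2 ^ k)) ≡ 1 [MOD q] := by
  have h3 : 2 ^ (q - 1) ≡ 1 [MOD q] := by
    have := Nat.ModEq.pow_totient (Nat.coprime_two_left.2 hq2)
    rwa [Nat.totient_prime hq] at this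
  have h4 : 2 ^ (2 ^ k) ≡ 1 [MOD q] := by
    obtain ⟨c, hc⟩ := h1
    rw [hc, pow_mul]
    simpa using h3.pow c
  have cast : ∀ j : ℕ, 2 ^ j ≡ 1 [MOD q] ↔ (2 : ZMod q) ^ j = 1 := by
    intro j
    rw [← ZMod.natCast_eq_natCast_iff]
    push_cast
    rfl
  rw [cast] at h2 h4 ⊢
  exact pow_gcd_eq_one.2 ⟨h2, h4⟩

theorem pow_two_case (a : ℕ) (h : 2 * beta (beta (2 ^ a)) = 2 ^ a) :
    a = 1 ∨ a = 2 ∨ a = 3 ∨ a = 7 ∨ a = 15 ∨ a = 31 := by
  rw [beta_prime_pow Nat.prime_two] at h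
  set m := loc 2 a with hm
  have hm0 : 0 < m := loc_pos 2 a le_rfl
  have hb : beta m ∣ 2 ^ a := Dvd.intro_left 2 h
  have key : ∀ q : ℕ, q.Prime → Odd q → q ∣ 3 * m → q - 1 ∣ 2 ^ (a + 1) := by
    intro q hq hq2 hd
    rcases (Nat.Prime.dvd_mul hq).1 hd with h3 | h3
    · rw [(Nat.prime_dvd_prime_iff_eq hq Nat.prime_three).1 h3]
      exact dvd_pow_self 2 (by omega)
    · exact (fermat_of_beta hm0 hb hq hq2 h3).trans (pow_dvd_pow 2 (by omega))
  rcases Nat.even_or_odd a with ha | ha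
  · have h1 : 3 * m = 2 ^ (a + 1) + 1 := loc_even 2 a (by norm_num) ha
    have h2 : ∀ {q : ℕ}, q.Prime → q ∣ 3 * m → q = 3 := by
      intro q hq hd
      have hq2 : Odd q := by
        refine Odd.of_dvd_nat ?_ hd
        rw [h1]; exact (Nat.even_pow.2 ⟨even_two, by omega⟩).add_one
      have h3 : 2 ^ (2 * (a + 1)) ≡ 1 [MOD q] := by
        have h4 : q ∣ 2 ^ (2 * (a + 1)) - 1 := by
          rw [h1] at hd
          refine hd.trans ⟨2 ^ (a + 1) - 1, ?_⟩
          rw [mul_comm 2 (a + 1), pow_mul]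
          have := Nat.sq_sub_sq (2 ^ (a + 1)) 1
          simpa using this
        exact ((Nat.modEq_iff_dvd' (Nat.one_le_two_pow)).2 h4).symm
      have h5 := order_two hq hq2 (key q hq hq2 hd) h3
      have h6 : Nat.gcd (2 * (a + 1)) (2 ^ (a + 1)) = 2 := by
        rw [pow_succ', Nat.gcd_mul_left,
          ((Nat.coprime_two_right.2 ha.add_one).pow_right a).gcd_eq_one]
      rw [h6] at h5
      have h7 : q ∣ 3 := (Nat.modEq_iff_dvd' (by norm_num)).1 h5.symm
      exact (Nat.prime_dvd_prime_iff_eq hq Nat.prime_three).1 h7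
    have h3 := Nat.eq_prime_pow_of_unique_prime_dvd (by omega : 3 * m ≠ 0) h2
    generalize (3 * m).primeFactorsList.length = c at h3
    rw [h1] at h3
    by_contra hne
    have ha0 : a ≠ 0 := by
      rintro rfl
      simp at h
    have ha4 : 4 ≤ a := by obtain ⟨k, rfl⟩ := ha; omega
    obtain ⟨d, rfl⟩ := Nat.exists_eq_add_of_le ha4
    have h4 : 3 ^ c % 16 = 1 := by
      rw [← h3, show 4 + d + 1 = 4 + (d + 1) by ring, pow_add]; omega
    have h5 : c % 4 = 0 := by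
      rw [← Nat.div_add_mod c 4, pow_add, pow_mul, Nat.mul_mod, Nat.pow_mod] at h4
      have : c % 4 < 4 := Nat.mod_lt _ (by norm_num)
      generalize c % 4 = r at *
      interval_cases r <;> simp_all
    have h6 : 3 ^ c % 5 = 1 := by
      rw [← Nat.div_add_mod c 4, pow_add, pow_mul, Nat.mul_mod, Nat.pow_mod, h5]; simp
    have h7 : 5 ∣ 2 ^ (4 + d + 1) := by omega
    have := Nat.Prime.dvd_of_dvd_pow Nat.prime_five h7
    omega
  · have h1 : 3 * m + 1 = 2 ^ (a + 1) := loc_odd 2 a (by norm_num) ha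
    obtain ⟨t, o, ho, hto⟩ := Nat.exists_eq_two_pow_mul_odd (show a + 1 ≠ 0 by omega)
    have hdiv : ∀ e, e ∣ a + 1 → 2 ^ e - 1 ∣ 3 * m := by
      intro e he
      have : 3 * m = 2 ^ (a + 1) - 1 := by omega
      rw [this]
      obtain ⟨c, hc⟩ := he
      rw [hc, pow_mul]
      simpa using Nat.sub_dvd_pow_sub_pow (2 ^ e) 1 c
    have ho1 : o = 1 := by
      by_contra hne
      have h2 : 2 ^ 2 ≤ 2 ^ o := Nat.pow_le_pow_right (by norm_num) (by
        obtain ⟨k, rfl⟩ := ho; omega)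
      obtain ⟨q, hq, hd⟩ := Nat.exists_prime_and_dvd (show 2 ^ o - 1 ≠ 1 by omega)
      have hq2 : Odd q := by
        refine Odd.of_dvd_nat ?_ hd
        exact Nat.Even.sub_odd Nat.one_le_two_pow (Nat.even_pow.2 ⟨even_two, ho.pos.ne'⟩) odd_one
      have h3 : 2 ^ o ≡ 1 [MOD q] := ((Nat.modEq_iff_dvd' Nat.one_le_two_pow).2 hd).symm
      have h5 := order_two hq hq2 (key q hq hq2 (hd.trans (hdiv o ⟨2 ^ t, by rw [hto]; ring⟩))) h3
      rw [((Nat.coprime_two_right.2 ho).pow_right _).gcd_eq_one] at h5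
      have h7 : q ∣ 1 := (Nat.modEq_iff_dvd' (by norm_num)).1 h5.symm
      exact hq.one_lt.ne' (Nat.dvd_one.1 h7)
    subst ho1
    rw [mul_one] at hto
    have ht : t < 6 := by
      by_contra hge
      have h2 : 64 ∣ a + 1 := by
        rw [hto]; exact pow_dvd_pow 2 (show 6 ≤ t by omega)
      have h3 : 641 ∣ 3 * m := dvd_trans (by norm_num) (hdiv 64 h2)
      have h4 := key 641 (by norm_num) (by decide) h3
      have h5 : 5 ∣ 2 ^ (a + 1) := dvd_trans (by norm_num) h4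
      have := Nat.Prime.dvd_of_dvd_pow Nat.prime_five h5
      omega
    have ha1 := ha.pos
    interval_cases t <;> omega

theorem beta_odd (a u : ℕ) (ha : 1 ≤ a) (hu : Odd u)
    (h : 2 * beta (beta (2 ^ a * u)) = 2 ^ a * u) : Odd (beta (2 ^ a * u)) := by
  have hu2 : ¬ 2 ∣ u := by rw [← even_iff_two_dvd]; exact Nat.not_even_iff_odd.2 hu
  have hn0 : 0 < 2 ^ a * u := Nat.mul_pos (by positivity) hu.pos
  have hm0 := (beta_pos_le _ hn0).1
  obtain ⟨e, w, hw, hw0, hm⟩ := split_prime Nat.prime_two hm0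
  by_contra hodd
  have he : 1 ≤ e := by
    rcases Nat.eq_zero_or_pos e with rfl | h'
    · exfalso; apply hodd; rw [hm]; simpa [Nat.odd_iff] using hw
    · exact h'
  rw [hm, beta_split Nat.prime_two e w hw] at h
  rw [beta_split Nat.prime_two a u hu2] at hm
  have bu := (beta_pos_le u hu.pos).2
  have bw := (beta_pos_le w hw0).2
  have la := loc_two_le a ha
  have le' := loc_two_le e he
  have hA : 0 < 2 ^ a * u := hn0
  generalize hA' : 2 ^ a = A at *
  generalize hE' : 2 ^ e = E at *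
  have fin : ∀ c1 d1 c2 d2 c3 d3 c4 d4 : ℕ, d1 * loc 2 a ≤ c1 * A → d2 * beta u ≤ c2 * u →
      d3 * loc 2 e ≤ c3 * E → d4 * beta w ≤ c4 * w →
      2 * (c1 * c2 * c3 * c4) < d1 * d2 * d3 * d4 → False := by
    intro c1 d1 c2 d2 c3 d3 c4 d4 h1 h2 h3 h4 h5
    have h6 := Nat.mul_le_mul h1 h2
    have h7 := Nat.mul_le_mul h3 h4
    have h8 : d1 * d2 * (E * w) ≤ c1 * c2 * (A * u) := by rw [← hm]; nlinarith
    have h9 : d3 * d4 * (A * u) ≤ 2 * (c3 * c4 * (E * w)) := by rw [← h]; nlinarith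
    have h10 : d1 * d2 * d3 * d4 * (A * u) ≤ 2 * (c1 * c2 * c3 * c4) * (A * u) := by
      calc d1 * d2 * d3 * d4 * (A * u) = d1 * d2 * (d3 * d4 * (A * u)) := by ring
        _ ≤ d1 * d2 * (2 * (c3 * c4 * (E * w))) := Nat.mul_le_mul_left _ h9
        _ = 2 * (c3 * c4) * (d1 * d2 * (E * w)) := by ring
        _ ≤ 2 * (c3 * c4) * (c1 * c2 * (A * u)) := Nat.mul_le_mul_left _ h8
        _ = _ := by ring
    have := Nat.le_of_mul_le_mul_right h10 hA
    omega
  by_cases ha2 : a = 2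
  · have h3 : 3 ∣ w := by
      have : 3 ∣ E * w := by rw [← hm, ha2, loc_two_two]; exact dvd_mul_right _ _
      refine (Nat.Coprime.dvd_mul_left ?_).1 this
      rw [← hE']; exact Nat.Coprime.pow_right _ (by norm_num)
    have := beta_ratio Nat.prime_three hw0 h3
    exact fin 3 4 1 1 3 4 7 9 la (by omega) le' (by omega) (by norm_num)
  by_cases he2 : e = 2
  · have h3 : 3 ∣ u := by
      have : 3 ∣ A * u := by
        rw [← h, he2, loc_two_two]; exact Dvd.dvd.mul_left (dvd_mul_right _ _) _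
      refine (Nat.Coprime.dvd_mul_left ?_).1 this
      rw [← hA']; exact Nat.Coprime.pow_right _ (by norm_num)
    have := beta_ratio Nat.prime_three hu.pos h3
    exact fin 3 4 7 9 3 4 1 1 la (by omega) le' (by omega) (by norm_num)
  · have l1 := loc_two_le' a ha ha2
    have l2 := loc_two_le' e he he2
    rw [hA'] at l1
    rw [hE'] at l2
    exact fin 11 16 1 1 11 16 1 1 l1 (by omega) l2 (by omega) (by norm_num)

theorem not_three_dvd (a u : ℕ) (ha : 2 ≤ a) (hu : Odd u)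
    (h : 2 * beta (beta (2 ^ a * u)) = 2 ^ a * u) : ¬ 3 ∣ u := by
  intro h3
  have hodd := beta_odd a u (by omega) hu h
  have hu2 : ¬ 2 ∣ u := by rw [← even_iff_two_dvd]; exact Nat.not_even_iff_odd.2 hu
  obtain ⟨c, w, hw, hw0, rfl⟩ := split_prime Nat.prime_three hu.pos
  rw [beta_split Nat.prime_two a _ hu2, beta_split Nat.prime_three c w hw] at h hodd
  have hc : Even c := by
    by_contra hc
    have h1 := loc_even_of_odd (p := 3) (by norm_num) (Nat.not_even_iff_odd.1 hc)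
    rw [Nat.odd_mul, Nat.odd_mul] at hodd
    exact (Nat.not_even_iff_odd.2 hodd.2.1) (even_iff_two_dvd.2 h1)
  have hc2 : 2 ≤ c := by
    rcases Nat.eq_zero_or_pos c with rfl | h'
    · simp at h3; exact absurd h3 hw
    · obtain ⟨k, rfl⟩ := hc; omega
  have e1 := loc_even 3 c (by norm_num) hc
  have e2 := loc_le 2 a (by norm_num)
  have hX : 3 ^ 2 ≤ 3 ^ c := Nat.pow_le_pow_right (by norm_num) hc2
  have hY : 2 ^ 2 ≤ 2 ^ a := Nat.pow_le_pow_right (by norm_num) ha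
  have e3 : 2 ^ (a + 1) ≤ 3 * loc 2 a + 1 := by
    rcases Nat.even_or_odd a with h' | h'
    · have := loc_even 2 a (by norm_num) h'; omega
    · have := loc_odd 2 a (by norm_num) h'; omega
  have hY' : 2 ^ a = 4 ∨ 8 ≤ 2 ^ a := by
    rcases Nat.eq_or_lt_of_le ha with h' | h'
    · left; rw [← h']; norm_num
    · right; exact Nat.pow_le_pow_right (n := 2) (by norm_num) (show 3 ≤ a by omega)
  rw [pow_succ] at e1 e2 e3
  obtain ⟨bw0, bw⟩ := beta_pos_le w hw0
  generalize 2 ^ a = Y at *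
  generalize 3 ^ c = X at *
  generalize loc 2 a = N2 at *
  generalize loc 3 c = N1 at *
  have hm0 : 0 < N2 * (N1 * beta w) := Nat.mul_pos (by omega) (Nat.mul_pos (by omega) bw0)
  have r1 := beta_ratio' (N := N1) (by omega) hm0 (Dvd.dvd.mul_left (dvd_mul_right _ _) _)
  have r2 := beta_ratio' (N := N2) (by omega) hm0 (dvd_mul_right _ _)
  have s : ∀ N : ℕ, (N + 2) * beta (N2 * (N1 * beta w)) ≤ (N + 1) * (N2 * (N1 * beta w)) →
      (N + 2) * (Y * X) ≤ 2 * (N + 1) * (N2 * N1) := by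
    intro N hN
    apply Nat.le_of_mul_le_mul_right _ hw0
    calc (N + 2) * (Y * X) * w = (N + 2) * (Y * (X * w)) := by ring
      _ = 2 * ((N + 2) * beta (N2 * (N1 * beta w))) := by rw [← h]; ring
      _ ≤ 2 * ((N + 1) * (N2 * (N1 * beta w))) := Nat.mul_le_mul_left _ hN
      _ ≤ 2 * ((N + 1) * (N2 * (N1 * w))) := by gcongr
      _ = _ := by ring
  have s1 := s N1 r1
  have s2 := s N2 r2
  have hN1 : (N1 : ℚ) = (3 * X + 1) / 4 := by
    have : (4 : ℚ) * N1 = X * 3 + 1 := by exact_mod_cast e1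
    linarith
  have hN2 : (N2 : ℚ) ≤ (2 * Y + 1) / 3 := by
    have : (3 : ℚ) * N2 ≤ Y * 2 + 1 := by exact_mod_cast e2
    linarith
  have t1 : ((N1 : ℚ) + 2) * (Y * X) ≤ 2 * (N1 + 1) * (N2 * N1) := by exact_mod_cast s1
  have t2 : ((N2 : ℚ) + 2) * (Y * X) ≤ 2 * (N2 + 1) * (N2 * N1) := by exact_mod_cast s2
  have hX' : (9 : ℚ) ≤ X := by exact_mod_cast hX
  have hY4 : (4 : ℚ) ≤ Y := by exact_mod_cast hY
  have hN20 : (0 : ℚ) ≤ N2 := by positivity
  generalize (N2 : ℚ) = n2 at *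
  rw [hN1] at t1 t2
  generalize hx : (X : ℚ) = x at *
  have u1 : 2 * (Y : ℚ) * (9 * x - 5) ≤ (3 * x + 5) * (3 * x + 1) := by
    have : 2 * ((3 * x + 1) / 4 + 1) * (n2 * ((3 * x + 1) / 4)) ≤
        2 * ((3 * x + 1) / 4 + 1) * ((2 * Y + 1) / 3 * ((3 * x + 1) / 4)) := by gcongr
    nlinarith
  have u2 : 3 * x * (4 * (Y : ℚ) - 4) ≤ (2 * Y + 4) * (2 * Y + 1) := by
    have k1 : n2 * ((3 * x + 1) / 4) ≤ (2 * Y + 1) / 3 * ((3 * x + 1) / 4) := by gcongr
    have k2 : (n2 + 2) * (Y * x) ≤ 2 * (n2 + 1) * ((2 * Y + 1) / 3 * ((3 * x + 1) / 4)) :=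
      t2.trans (by gcongr)
    have k3 : (0 : ℚ) ≤ 2 * ((2 * Y + 1) / 3 * ((3 * x + 1) / 4)) - Y * x := by nlinarith
    have k4 := mul_le_mul_of_nonneg_right hN2 k3
    nlinarith
  rcases hY' with hY' | hY'
  · have : (Y : ℚ) = 4 := by exact_mod_cast hY'
    rw [this] at u2
    linarith
  · have hY8 : (8 : ℚ) ≤ Y := by exact_mod_cast hY'
    generalize (Y : ℚ) = y at *
    have : 3 * x ≤ 2 * y := by
      by_contra hlt
      have hlt' : 2 * y < 3 * x := not_le.1 hlt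
      nlinarith
    nlinarith

theorem main (n : ℕ) (hn : 0 < n) (h : 2 * beta (beta n) = n) :
    n ∈ ({2, 4, 8, 128, 32768, 2 ^ 31} : Set ℕ) ∨
      ∃ a v : ℕ, 2 ≤ a ∧ 1 < v ∧ Nat.Coprime v 6 ∧ n = 2 ^ a * v ^ 2 := by
  obtain ⟨a, u, hu2, hu0, rfl⟩ := split_prime Nat.prime_two hn
  have hu : Odd u := Nat.odd_iff.2 (by omega)
  have ha : 1 ≤ a := by
    rcases Nat.eq_zero_or_pos a with rfl | h'
    · exfalso; apply hu2; exact ⟨_, by simpa using h.symm⟩
    · exact h'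
  by_cases hu1 : u = 1
  · subst hu1
    rw [mul_one] at h ⊢
    left
    rcases pow_two_case a h with rfl | rfl | rfl | rfl | rfl | rfl <;> simp
  right
  have hodd := beta_odd a u ha hu h
  have ha2 : 2 ≤ a := by
    by_contra hlt
    have : a = 1 := by omega
    subst this
    rw [beta_split Nat.prime_two 1 u hu2, show loc 2 1 = 1 by decide, one_mul] at h
    obtain ⟨b0, b1⟩ := beta_pos_le u hu0
    have b2 := (beta_pos_le _ b0).2
    have := beta_ratio' (N := u) (by omega) hu0 dvd_rfl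
    have h3 : beta u = u := by omega
    rw [h3] at this
    nlinarith
  have h3 := not_three_dvd a u ha2 hu h
  rw [beta_split Nat.prime_two a u hu2, Nat.odd_mul] at hodd
  obtain ⟨v, rfl⟩ := isSquare_of_beta_odd u hu hodd.2
  refine ⟨a, v, ha2, ?_, ?_, by ring⟩
  · by_contra hv
    have : v = 0 ∨ v = 1 := by omega
    rcases this with rfl | rfl <;> simp_all
  · have c2 : Nat.Coprime v 2 := Nat.coprime_two_right.2 (Nat.odd_mul.1 hu).1
    have c3 : Nat.Coprime v 3 := ((Nat.Prime.coprime_iff_not_dvd Nat.prime_three).2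
      (fun hd => h3 (Dvd.dvd.mul_right hd _))).symm
    exact Nat.Coprime.mul_right c2 c3

end Pool.Agent.Lib.MP_a13529_nt
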